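import Mathlib
import Pool.Agent.MP_e85a6b_ag.Defs
import Pool.Agent.MP_e85a6b_ag.Mg.Main

set_option autoImplicit false

open Pool.Agent.MP_e85a6b_ag

/-- For every field and all admissible sizes, the ideal of the variety of complexes is prime and
its symbolic Rees algebra and symbolic associated graded algebra are Noetherian rings. -/
theorem Pool.Agent.Results.MP_e85a6b_ag.Noetherian.result
    (K : Type*) [Field K] (m t n r s : ℕ) (hm : 0 < m) (_ht : 0 < t) (hn : 0 < n)
    (hrs : r + s ≤ t) :
    ∃ hP : (complexIdeal K m t n r s).IsPrime,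
      IsNoetherianRing (symbolicRees (complexIdeal K m t n r s) hP) ∧
      IsNoetherianRing (SymbolicGraded (complexIdeal K m t n r s) hP) := by
  obtain ⟨hP, h⟩ := main K hm hn hrs
  exact ⟨hP, h, inferInstance⟩
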